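import Pool.Agent.J4.H93.WK.WK5
import Pool.Agent.J4.H93.WK.WK6

/-!
# Logarithmic Kodaira dimension and `A¹`-uniruledness for all large tuples of monomials of generic shape

Let `I 1, …, I s` be nonempty sets of the variables `x_0, …, x_n`. We consider tuples `a` of exponent vectors `a i` of degree `d`
in the variables from `I i`. The shape of a tuple is the point `z` with the coordinates `z i j = a i j / d`. A shape is generic
(`GenericShape I z`) if its coordinates with `j` in `I i` are not zero and if `n` differences of points among the `z i` and the
vertices of the simplex (the shapes of the `x_j ^ d`) are linearly independent whenever this is possible with the given sets `I i`.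
So the shapes that are not generic lie on finitely many hypersurfaces, the zeros of determinants.

**Theorem.** Let `K` be a compact set of generic shapes. There are `δ > 0` and `d₀` such that for all `d ≥ d₀` and ALL tuples `a`
of degree `d` whose shape has distance at most `δ` from `K`: let `X` be any projective variety given by (any number of) linear
combinations, with any coefficients, of the monomials with the exponent vectors `a i` and of the `x_j ^ d`, over any algebraically
closed field of characteristic zero, let `U` be any set of variables, and let `V` be any irreducible component of the open part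
`x_j ≠ 0` (`j` in `U`) of `X`. Then the following are equivalent: the logarithmic Kodaira dimension of `V` is `-∞`; the log
canonical class is not pseudo-effective; `V` is `A¹`-uniruled; `V` is covered by the affine lines `t ↦ (t ^ b_j x_j)` for some
`b`; some one-parameter group of diagonal matrices, with weights that are minimal on `U`, acts nontrivially on `V`. Otherwise the
logarithmic Kodaira dimension of `V` is `dim V - p`, where `p` is the dimension of a torus of diagonal matrices which acts on `V`
(with a finite kernel).

The known results of this kind (`SparseLogVarieties`, `NewtonNondegenerate` among the starting results) need exponents that are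
highly divisible, or coefficients in general position. The new points of the proof: (1) the sections of the multiples of the log
canonical bundle are regular at a divisor as soon as the sum of the differences of the orders of one pair of terms of each of the
chosen circuits is large (`coreS`), so that only the widths in the directions that are minimal on `U` matter (`WideK`); (2) near a
generic shape, either the linear system given by a set of differences of exponents has a nonzero solution in the cone of these
directions for all tuples, which gives a contracting one-parameter group, or the widths in all these directions are at least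
`c d` (`perturb`, `local_wide`).

`SubVarU`, `IsComponentU`, `OffU`, `Acts`, `Contracts`, `KodGe` (`Pool/Agent/W602/GT`) are the notions of the starting result
`SparseLogVarieties`: `L` is the function field of `V`, `y` its generic point in homogeneous coordinates and `w` its dimension;
`OffU U y P`: the centre of the place `P` lies on one of the hyperplanes `x_j = 0`, `j` in `U`; `KodGe k L w (OffU U y) h`: the
logarithmic Kodaira dimension of `V` is at least `h`; `Psef`: the log canonical class is pseudo-effective. `IsA1Uniruled`
(`Pool/Agent/W619/PL`) is the notion of the starting result `NewtonNondegenerate`.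
-/

set_option autoImplicit false

namespace Pool.Agent.Results.MP_410da7_ag.GenericShapes

open MvPolynomial Pool.Agent.J4.H93.WS Pool.Agent.J4.H93.WK Pool.Agent.R869.Wd Pool.Agent.W602.GT

/-- The criterion for the monomials with the exponent vectors `a i` and the `x_j ^ d`: for all components `V` of the open parts
`x_j ≠ 0`, `j` in `U`, of the projective varieties given by linear combinations `F e` of these monomials, logarithmic Kodaira
dimension `-∞`, non-pseudo-effective log canonical class, `A¹`-uniruledness, the existence of a covering by affine lines
`t ↦ (t ^ b_j x_j)` and of a one-parameter group of diagonal matrices which acts nontrivially on `V` with weights that are minimal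
on `U` are equivalent, and otherwise the logarithmic Kodaira dimension is `h = dim V - p` where a torus of dimension `p` of diagonal
matrices acts on `V`. -/
def LogCriterion {n s : ℕ} (d : ℕ) (a : Fin s → (Fin (n + 1) →₀ ℕ)) : Prop :=
  ∀ (k : Type) [Field k] [IsAlgClosed k] [CharZero k] (ι : Type) (F : ι → MvPolynomial (Fin (n + 1)) k),
    (∀ e, (F e).support ⊆ withPowers d a) → ∀ (U : Set (Fin (n + 1))) (L : Type) [Field L] [Algebra k L] (w : ℕ)
      (y : Fin (n + 1) → L), SubVarU U F L w y → IsComponentU U F y →
    [¬ KodGe k L w (OffU U y) 0, ¬ Psef k L w (OffU U y), Pool.Agent.W619.PL.IsA1Uniruled k L w (OffU U y),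
      ∃ b, Contracts U k y b,
      ∃ b, Acts U k y b ∧ (∃ i i', y i ≠ 0 ∧ y i' ≠ 0 ∧ b i ≠ b i') ∧ ∀ j ∈ U, ∀ l, y l ≠ 0 → b j ≤ b l].TFAE ∧
    (KodGe k L w (OffU U y) 0 → ∃ (h p : ℕ) (b : Fin p → Fin (n + 1) → ℤ), h + p = w ∧ (∀ l, Acts U k y (b l)) ∧
      (∀ c : Fin p → ℤ, (∀ j j', y j ≠ 0 → y j' ≠ 0 → ∑ l, c l * b l j = ∑ l, c l * b l j') → c = 0) ∧
      KodGe k L w (OffU U y) h ∧ ¬ KodGe k L w (OffU U y) (h + 1))

theorem result {n s : ℕ} (I : Fin s → Finset (Fin (n + 1))) (K : Set (Fin s → Fin (n + 1) → ℝ)) (hK : IsCompact K)
    (hg : ∀ z ∈ K, GenericShape I z) :
    ∃ δ : ℝ, 0 < δ ∧ ∃ d₀ : ℕ, ∀ d : ℕ, d₀ ≤ d → ∀ a ∈ TuplesIn I d,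
      (∃ z ∈ K, ∀ i j, |(a i j : ℝ) - d * z i j| ≤ δ * d) → LogCriterion d a := by
  obtain ⟨δ, hδ, d₀, h⟩ := wideK_compact K hK hg
    (n * ((s + (n + 1) + 1) * ((s + (n + 1) - 1) * (s + (n + 1) - 2) / 2)))
  refine ⟨δ, hδ, d₀, fun d hd a ha hz k _ _ _ ι F hF U L _ _ w y hy hcomp => ?_⟩
  have hW := (h d hd a ha hz U).wide hF
  have hform : ∀ e, IsForm (F e) := fun e => ⟨d, isForm_of_deg fun α hα => by
    obtain ⟨p, hp⟩ := mem_withPowers.1 (hF e hα)
    rw [← hp]
    exact expo_deg ha p⟩
  have hcard : ∀ e, (F e).support.card ≤ s + (n + 1) := fun e =>
    (Finset.card_le_card (hF e)).trans (card_withPowers d a)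
  exact ⟨a1_wide hform hcard hW le_rfl hy hcomp, (kod_wide_final hform hcard hW le_rfl hy hcomp).2⟩

end Pool.Agent.Results.MP_410da7_ag.GenericShapes
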