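import Pool.Agent.J4.H18.LS.Main
import Pool.Agent.J4.H18.MS.Poly

/-!
# Logarithmic Kodaira dimension and `A¹`-uniruledness: images of fibrations by open curves

Let `V°` be an arbitrary smooth variety over `ℂ` of dimension `n + 1`, open or projective, and
`V° ⇢ V'` a dominant rational map with irreducible general fibres (open or projective curves of any
genus, any moduli, and any singular fibres) to an arbitrary variety of dimension `n`. Let
`V' ⇢ V' i`, `i < k`, be dominant rational maps to varieties of any dimensions, such that the function
fields of the `V' i` generate that of `V'` (for example `k = 1` and `V' 0 = V'`). Let `S i` be sets of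
rational functions on `V' i`, and `ω j` canonical forms of `V°` (which may have poles) such that

* all the products `s 0 ⋯ s (k - 1) ω j`, `s i ∈ S i`, are logarithmic canonical forms of `V°`:
  sections of `K_V + D_V` for the smooth compactifications `V` of `V°` with the boundary `D_V`, and
* the restrictions of the `ω j` to the geometric generic fibre `C°` of `V° ⇢ V'` generate the
  logarithmic differentials of the open curve `C°`.

Let `V° ⇢ W°` be a dominant rational map of finite degree which is proper in the sense that a prime
divisor over `V°` (on any compactification of any birational model) has a centre on `V°` if and only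
if its image has a centre on `W°`; for example any finite morphism onto a normal variety `W°`. It has
nothing to do with the fibration and with the maps to the `V' i`, and it need not be the quotient by a
group. Let `W i` be the image of `V` in `W × V' 0 × ... × V' (i - 1)`, and let `d i` be the degree over
`W i` of the image of `V` in `W i × V' i`. The degree over `W` of the image of `V` in `W × V'` is the
product of the `d i`.

* If for all `i` the functions in `S i` separate `d i` general points of `V' i` then

  `log p_g(W°) = 0 ⟺ log κ(W°) = -∞ ⟺ K_W + D_W is not pseudo-effective ⟺ W° is A¹-uniruled`,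

  for the logarithmic genus and the log canonical divisor `K_W + D_W` of a smooth compactification of a
  resolution of `W°`.
* If for all `i` the functions in `S i` separate `2 d i` general points of `V' i` then `K_W + D_W` is
  pseudo-effective if and only if `log κ(W°) ≥ n = dim W - 1`, if and only if the image of the
  logarithmic canonical map (of `H⁰(K_W + D_W)`) has dimension at least `n`, if and only if `W°` is
  not `A¹`-uniruled. The logarithmic canonical map of `W°` is generically finite if and only if `W°`
  is not covered by a family of open curves of logarithmic genus at most one, i.e. of images of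
  rational curves without at most two points and elliptic curves without at most one point.

So question Q1 has a positive answer for all these varieties `W°`.

## Examples

* (`separates_monomials`) The polynomials of degree at most `M i` in functions which generate the
  function field of `V' i` separate `M i + 1` points. So if `V' i ⊂ ℙ^(N i)` has the hyperplane
  class `H i` then the conditions are: the sections of `K_V + D_V - ∑ M i H i` generate the
  logarithmic differentials of the fibres, and `d i ≤ M i + 1` (or `2 d i ≤ M i + 1`) for all `i`.
* Let `V°` be the complement of a general hypersurface of multidegree `(e 1, ..., e n, a)` in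
  `(ℙ ^ 1) ^ (n + 1)`, `a ≥ 2`, `e i ≥ 2`, over `V' = (ℙ ^ 1) ^ n`: `K_V + D_V = O(e i - 2, a - 2)`,
  and `C°` is the projective line without `a` points. All its proper images `W°` with `d i ≤ e i - 1`
  for all `i` are in our class; there is no condition on `a`. These varieties are neither images of
  products of curves nor of products with a curve in an obvious way. Similarly for complements of
  hypersurfaces in other fibrations by curves over products, and for complements with any number of
  components.
* `V° = X 0 × ... × X (k - 1) × U` for smooth varieties `X i`, open or projective, whose logarithmic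
  canonical forms separate `d i` points, and any smooth curve `U`: `S i` are the values of the
  logarithmic canonical forms of `X i` on a rational frame.

## Proof

Let `σ j` be the trace of `ω j` on the image `W'` of `V` in `W × V'`. If all the `σ j` are zero then
all logarithmic differentials of `C°` have trace zero on the image `C'` of `C` in the geometric
generic fibre of `W' ⇢ V'`. So `C'` is rational, and at most one point of `C'` is below the boundary
of `C°`: otherwise the pullback of a differential of the third kind with poles at two of these points
would be a logarithmic differential with nonzero trace. Hence `W°` is covered by images of the affine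
line. The traces of the forms `s 0 ⋯ s (k - 1) ω j` on `W` are logarithmic canonical forms of `W°`,
and they are the traces of the `s 0 ⋯ s (k - 1) σ j`. By the separation properties, for
`i = k - 1, ..., 0`, not all of them are zero if some `σ j` is not zero. Suppose that two generic
points `P`, `Q` of `W` have the same image under the map given by these traces. This is a relation
between the points of `W'` over `P` and `Q`, and it is multilinear in the values of the `s i`. At most
`2 d i` points of `V' i` occur if the first `i` coordinates are fixed, so we can fix the coordinates
one after the other. It follows that the functions of `V'` and the `σ j / σ i` are algebraic over the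
field of the ratios of the traces, and the logarithmic canonical image of `W°` has dimension at least
`n`. If its dimension is `n` then the `σ j / σ i` are functions of `V'`, because the function field of
`V'` is algebraically closed in that of `V`. So the traces on `C'` of all logarithmic differentials
of `C°` are multiples of one of them, and the complement in `C'` of the points which lie over the
boundary of `W°` has logarithmic genus at most one. Conversely the restrictions of the logarithmic
canonical forms of `W°` to a covering family of curves are logarithmic, so they are proportional if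
the logarithmic genus of the curves is at most one.

The relations between the points of two fibres, the elimination of the coordinates and the
`A¹`-uniruledness are due to helper145, helper342, helper75 and helper78 (`Pool/Agent/N145`), the
theorems on the geometric generic fibre to helper19 (`Pool/Agent/J4/H19/FC`). The case of projective
varieties is `MP_97d78d_ag.FibrationsWithSeveralMaps`.

`K` and `L` are the function fields of `V` and `W`, `F i` is the one of `V' i`. Prime divisors over `V`
are the divisorial places `P` of `K` (`Divisorial`), and `P.ord` is the order along `P`. The predicates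
`BV` and `BW` on the places are the boundaries: the places without centre on `V°` and `W°`. A canonical
form (`IsPluri 1`) on a variety of dimension `n` is a function of `n` rational vector fields; it is a
logarithmic canonical form of `V°` (`LogSec ℂ K n 1 BV`) if its values on vector fields which are
logarithmic at the prime divisor `P` are regular at `P`, and if it is regular at `P` for `P` outside
of `BV`. `KodGe ℂ L n BW j` says that `log κ(W°) ≥ j`, `Psef ℂ L n BW` that `K_W + D_W` is
pseudo-effective (`Pool/Agent/W602/GT`), `IsA1Uniruled ℂ L n BW` that `W°` is `A¹`-uniruled
(`Pool/Agent/W619/PL/LDefs.lean`).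
-/

set_option autoImplicit false
set_option linter.overlappingInstances false
set_option maxHeartbeats 4000000
set_option synthInstance.maxHeartbeats 400000

open FF Module IntermediateField Pool.Agent Pool.Agent.W602.GT
open Pool.Agent.W619.PL (IsA1Uniruled)

namespace Pool.Agent.Results.MP_410da7_ag.OpenFibrationsWithSeveralMaps

variable {K : Type} [Field K] [Algebra ℂ K] {n k : ℕ}

/-- The functions in `S` separate `r` general points of the variety with the function field `E`: the
embeddings `σ : E → Ω` are the generic points of the variety with coordinates in the field `Ω`, and at
most `r` different such points impose independent conditions on the linear combinations of the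
elements of `S`: if `∑ c σ * σ s = 0` for all `s` in `S` then all the coefficients `c σ` are zero. -/
def Separates (E : IntermediateField ℂ K) (S : Set K) (r : ℕ) : Prop :=
  ∀ (Ω : Type) [Field Ω] [Algebra ℂ Ω] [IsAlgClosed Ω] (A : Finset (E →ₐ[ℂ] Ω)), A.card ≤ r →
    ∀ c : (E →ₐ[ℂ] Ω) → Ω, (∀ s : E, (s : K) ∈ S → ∑ σ ∈ A, c σ * σ s = 0) → ∀ σ ∈ A, c σ = 0

/-- **Example.** The monomials of degree at most `M` in generators `t j` of the function field
separate `M + 1` points. -/
theorem separates_monomials {N : ℕ} (t : Fin N → K) (M : ℕ) :
    Separates (IntermediateField.adjoin ℂ (Set.range t))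
      {z | ∃ a : Fin N → ℕ, ∑ j, a j ≤ M ∧ z = ∏ j, t j ^ a j} (M + 1) :=
  J4.H18.MS.separates_monomials t M

/-- The function field of the image `W i` of `V` in the product of `W` and the first `i` of the
varieties `V' l`, with the function fields `F l`. Here `K` and `L` are the function fields of `V`
and `W`. -/
noncomputable def Img (F : Fin k → IntermediateField ℂ K) (L : Type) [Field L] [Algebra L K]
    (i : ℕ) : IntermediateField L K :=
  IntermediateField.adjoin L {z | ∃ l : Fin k, l.val < i ∧ z ∈ F l}

/-- The degree `d i` over `W i` of the image of `V` in the product of `W i` and `V' i`. -/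
noncomputable def deg (F : Fin k → IntermediateField ℂ K) (L : Type) [Field L] [Algebra L K]
    (i : Fin k) : ℕ :=
  finrank (Img F L i) (IntermediateField.adjoin (Img F L i) (F i : Set K))

/-- The forms `ω j` are canonical forms (possibly with poles), and all their products
`s 0 ⋯ s (k - 1) ω j` with elements `s i` of `S i ⊆ F i` are logarithmic canonical forms of the open
variety `V°` with the boundary `BV`. -/
def AreTwisted {J : Type} (F : Fin k → IntermediateField ℂ K) (S : Fin k → Set K) (n : ℕ)
    (BV : Place ℂ K → Prop) (ω : J → (Fin n → Derivation ℂ K K) → K) : Prop :=
  (∀ j, IsPluri 1 (ω j)) ∧ ∀ s : Fin k → K, (∀ i, s i ∈ F i ∧ s i ∈ S i) →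
    ∀ j : J, LogSec ℂ K n 1 BV (fun D => (∏ i, s i) * ω j D)

/-- The algebraic closure of the function field `B` of `V'`, in an algebraic closure of the function
field `K` of `V`. -/
abbrev Const (B : IntermediateField ℂ K) : Type := algebraicClosure B (AlgebraicClosure K)

/-- The function field of the geometric generic fibre `C` of the map from `V` to the variety `V'` with
the function field `B`: the compositum of `K` and the algebraic closure of `B`. -/
abbrev GeometricFibre (B : IntermediateField ℂ K) : Type :=
  IntermediateField.adjoin (algebraicClosure B (AlgebraicClosure K))
    (Set.range (algebraMap K (AlgebraicClosure K)))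

/-- The restriction to `C` of the rational function `z` on `V`. -/
noncomputable def restrict (B : IntermediateField ℂ K) (z : K) : GeometricFibre B :=
  ⟨algebraMap K (AlgebraicClosure K) z, IntermediateField.subset_adjoin _ _ ⟨z, rfl⟩⟩

/-- The points of the geometric generic fibre `C` at infinity: those over a place in the boundary `BV`
of `V°`. The open curve `C°` is the complement of this set. -/
def FibreBoundary (B : IntermediateField ℂ K) (BV : Place ℂ K → Prop) :
    Set (Place (Const B) (GeometricFibre B)) :=
  {Q | ∃ P : Place ℂ K, BV P ∧ ∃ e : ℕ, 0 < e ∧ ∀ z : K, Q.ord (restrict B z) = e * P.ord z}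

open scoped Classical in
/-- The differential `f dx` of the curve with the function field `F` over `Λ`, where `D = d/dx`, is
a logarithmic differential of the open curve which is the complement of the set `S` of points: at
each point `Q` with uniformizer `u`, the function `f dx/du = f / D u` is regular, or has at most a
simple pole and `Q ∈ S`. -/
def IsLogarithmic {Λ F : Type} [Field Λ] [Field F] [Algebra Λ F] (D : Derivation Λ F F)
    (S : Set (Place Λ F)) (f : F) : Prop :=
  ∀ (Q : Place Λ F) (u : F), Q.ord u = 1 →
    f = 0 ∨ Q.ord (D u) ≤ Q.ord f + (if Q ∈ S then 1 else 0)

/-- **The restrictions of the forms `ω j` to the geometric generic fibre `C` generate the logarithmic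
differentials of `C°`.** Let `x l` be coordinates on `V'` and `ξ` one more coordinate on `V`, and let
the `E i` be the dual vector fields on `V`, so that `ω j = ω j (E) dx_1 ... dx_n dξ`. The restriction
of `ω j` to `C` (as a relative differential) is `ω j (E) dξ`. The condition is that all logarithmic
differentials `f dξ` of `C°` are linear combinations of them. -/
def GenerateFibreDifferentials {J : Type} (B : IntermediateField ℂ K) (BV : Place ℂ K → Prop)
    (ω : J → (Fin (n + 1) → Derivation ℂ K K) → K) : Prop :=
  ∀ (x : Fin n → K) (ξ : K), (∀ l, x l ∈ B) →
    IsTranscendenceBasis ℂ (Fin.append x (fun _ : Fin 1 => ξ)) →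
    ∀ E : Fin (n + 1) → Derivation ℂ K K,
      (∀ i l, E i (Fin.append x (fun _ : Fin 1 => ξ) l) = if i = l then 1 else 0) →
    ∀ D : Derivation (Const B) (GeometricFibre B) (GeometricFibre B), D (restrict B ξ) = 1 →
    ∀ f : GeometricFibre B, IsLogarithmic D (FibreBoundary B BV) f →
      f ∈ Submodule.span (Const B) (Set.range fun j => restrict B (ω j E))

/-- The set `BW` of places of the function field `L` of `W` is the boundary of the image of `V°`: for
all places `Q` of `K` over a place `P` of `L`, `P` is in `BW` if and only if `Q` is in the
boundary `BV` of `V°`. -/
def IsImageBoundary (BV : Place ℂ K → Prop) (L : Type) [Field L] [Algebra ℂ L] [Algebra L K]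
    (BW : Place ℂ L → Prop) : Prop :=
  ∀ (P : Place ℂ L) (Q : Place ℂ K) (e : ℕ), 0 < e →
    (∀ f : L, Q.ord (algebraMap L K f) = e * P.ord f) → (BW P ↔ BV Q)

/-- The logarithmic geometric genus of the open variety `W°` with the function field `L` and the
boundary `BW` is zero: the only logarithmic canonical form is `0`. -/
def LogGenusZero (L : Type) [Field L] [Algebra ℂ L] (n : ℕ) (BW : Place ℂ L → Prop) : Prop :=
  ∀ ω : (Fin n → Derivation ℂ L L) → L, LogSec ℂ L n 1 BW ω → ∀ D, ω D = 0

/-- The image of the logarithmic canonical map of the open variety `W°` of dimension `w` with the
function field `L` and the boundary `BW` has dimension at least `j`: there are logarithmic canonical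
forms with `j` algebraically independent ratios. (`KodGe` is the same for pluricanonical forms of
some weight.) -/
def LogCanonicalImageDimGe (L : Type) [Field L] [Algebra ℂ L] (w : ℕ) (BW : Place ℂ L → Prop)
    (j : ℕ) : Prop :=
  ∃ ω : Fin (j + 1) → (Fin w → Derivation ℂ L L) → L, (∀ i, LogSec ℂ L w 1 BW (ω i)) ∧
    ∃ D, ω 0 D ≠ 0 ∧ AlgebraicIndependent ℂ (fun i : Fin j => ω i.succ D / ω 0 D)

/-- The open curve with the function field `F` over the algebraically closed field `Λ`, the complement
of the set `S` of points, has logarithmic genus at most one: any two logarithmic differentials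
`f dx` and `g dx` are linearly dependent. -/
def LogGenusLeOne (Λ F : Type) [Field Λ] [Field F] [Algebra Λ F] (S : Set (Place Λ F)) : Prop :=
  ∀ D : Derivation Λ F F, D ≠ 0 → ∀ f g : F, IsLogarithmic D S f → IsLogarithmic D S g →
    ∃ a b : Λ, (a ≠ 0 ∨ b ≠ 0) ∧ algebraMap Λ F a * f = algebraMap Λ F b * g

/-- The open variety `W°` with the function field `L`, of dimension `n + 1`, and with the boundary `BW`
is covered by an `n`-dimensional family of open curves of logarithmic genus at most one: there are an
algebraically closed field `Λ` of transcendence degree `n` (the algebraic closure of the function field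
of the base of the family), a curve over `Λ` with function field `F` (the geometric generic curve of
the family) and an embedding `ψ` of `L` into `F` (the dominant map from the total space to `W`) such
that the complement of the points of the curve over places in `BW` has logarithmic genus at most
one. -/
def IsCoveredByLogGenusLeOne (L : Type) [Field L] [Algebra ℂ L] (n : ℕ)
    (BW : Place ℂ L → Prop) : Prop :=
  ∃ (Λ F : Type) (_ : Field Λ) (_ : Field F) (_ : Algebra ℂ Λ) (_ : Algebra ℂ F)
    (_ : Algebra Λ F) (_ : IsScalarTower ℂ Λ F) (_ : IsAlgClosed Λ) (_ : IsFF Λ F),
    Algebra.trdeg ℂ Λ = n ∧ ∃ ψ : L →ₐ[ℂ] F, LogGenusLeOne Λ F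
      {Q | ∃ P : Place ℂ L, BW P ∧ ∃ e : ℕ, 0 < e ∧ ∀ z : L, Q.ord (ψ z) = e * P.ord z}

theorem mem_HL {Λ F : Type} [Field Λ] [Field F] [Algebra Λ F] [CharZero Λ] [IsAlgClosed Λ]
    [IsFF Λ F] {D : Derivation Λ F F} (hD : D ≠ 0) (S : Set (Place Λ F)) (f : F) :
    f ∈ N145.PL.HL D S ↔ IsLogarithmic D S f := by
  classical
  have h0 : ∀ Q : Place Λ F, N145.PL.bd S Q = if Q ∈ S then 1 else 0 := fun Q => by
    unfold N145.PL.bd
    split_ifs <;> rfl
  constructor
  · intro h Q u hu
    refine (h Q).imp_right fun h1 => ?_
    rw [h0, ← W603.LV.vo_eq Q hu hD] at h1
    have h2 : Q.ord (D u) ≤ Q.ord f + (if Q ∈ S then 1 else 0) := by linarith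
    convert h2
  · intro h Q
    refine (h Q _ (W603.LV.ord_unif Q)).imp_right fun h1 => ?_
    have h2 : Q.ord (D (W603.LV.unif Q)) ≤ Q.ord f + (if Q ∈ S then 1 else 0) := by
      convert h1
    rw [h0]
    change Q.ord (D (W603.LV.unif Q)) - _ ≤ _
    linarith

theorem cover_iff (L : Type) [Field L] [Algebra ℂ L] (n : ℕ) (BW : Place ℂ L → Prop) :
    J4.H18.LS.LogCov1 L n BW ↔ IsCoveredByLogGenusLeOne L n BW := by
  constructor
  · rintro ⟨Λ, F, i1, i2, i3, i4, i5, i6, i7, i8, h1, ψ, h2⟩
    have hch : CharZero Λ := charZero_of_injective_algebraMap (algebraMap ℂ Λ).injective
    exact ⟨Λ, F, i1, i2, i3, i4, i5, i6, i7, i8, h1, ψ, fun D hD f g hf hg =>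
      h2 D hD f ((mem_HL hD _ f).2 hf) g ((mem_HL hD _ g).2 hg)⟩
  · rintro ⟨Λ, F, i1, i2, i3, i4, i5, i6, i7, i8, h1, ψ, h2⟩
    have hch : CharZero Λ := charZero_of_injective_algebraMap (algebraMap ℂ Λ).injective
    exact ⟨Λ, F, i1, i2, i3, i4, i5, i6, i7, i8, h1, ψ, fun D hD f hf g hg =>
      h2 D hD f g ((mem_HL hD _ f).1 hf) ((mem_HL hD _ g).1 hg)⟩

/-- **Images of fibrations by open curves.** Let `V°` be an open variety of dimension `n + 1` with
function field `K` and boundary `BV`, and `V° ⇢ V'` the map to the variety of dimension `n` whose
function field is the compositum of the subfields `F i`, the function fields of varieties `V' i`, with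
irreducible general fibres (`hcl`). Let `S i` be sets of functions on `V' i`, and `ω j` canonical forms
on `V` such that the forms `s 0 ⋯ s (k - 1) ω j`, `s i ∈ S i`, are logarithmic canonical forms of `V°`,
and the restrictions of the `ω j` to the geometric generic fibre generate the logarithmic
differentials of the open fibre. Let `V° ⇢ W°` be a dominant rational map of finite degree, `L` the
function field of `W°` and `BW` its boundary, such that a place of `K` over a place of `L` is in `BV`
if and only if the place of `L` is in `BW`. Let `d i` be the degree over `W i` of the image of `V` in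
`W i × V' i`, where `W i` is the image of `V` in `W × V' 0 × ... × V' (i - 1)`.
If `S i` separates `d i` general points of `V' i` for all `i`, then the following are equivalent: the
logarithmic geometric genus of `W°` is zero; its logarithmic Kodaira dimension is `-∞`; its log
canonical divisor is not pseudo-effective; `W°` is `A¹`-uniruled. If `S i` separates `2 d i` general
points of `V' i` for all `i`, then: the log canonical divisor of `W°` is pseudo-effective if and only
if `log κ(W°) ≥ n = dim W - 1`, if and only if the image of the logarithmic canonical map has dimension
at least `n`, if and only if `W°` is not `A¹`-uniruled; and the logarithmic canonical map of `W°` is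
generically finite if and only if `W°` is not covered by an `n`-dimensional family of open curves of
logarithmic genus at most one. -/
theorem result [Algebra.EssFiniteType ℂ K] (hK : Algebra.trdeg ℂ K = (n + 1 : ℕ))
    (BV : Place ℂ K → Prop) (F : Fin k → IntermediateField ℂ K)
    (hF : Algebra.trdeg ℂ (⨆ i, F i : IntermediateField ℂ K) = n)
    (hcl : ∀ g : K, IsAlgebraic (⨆ i, F i : IntermediateField ℂ K) g → g ∈ ⨆ i, F i)
    (S : Fin k → Set K) {J : Type} {ω : J → (Fin (n + 1) → Derivation ℂ K K) → K}
    (hω : AreTwisted F S (n + 1) BV ω) (hgen : GenerateFibreDifferentials (⨆ i, F i) BV ω)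
    (L : Type) [Field L] [Algebra ℂ L] [Algebra L K] [IsScalarTower ℂ L K]
    [FiniteDimensional L K] (BW : Place ℂ L → Prop) (hBW : IsImageBoundary BV L BW) :
    ((∀ i, Separates (F i) (S i) (deg F L i)) →
      [LogGenusZero L (n + 1) BW, ¬ KodGe ℂ L (n + 1) BW 0, ¬ Psef ℂ L (n + 1) BW,
        IsA1Uniruled ℂ L (n + 1) BW].TFAE) ∧
    ((∀ i, Separates (F i) (S i) (2 * deg F L i)) →
      [Psef ℂ L (n + 1) BW, KodGe ℂ L (n + 1) BW n, LogCanonicalImageDimGe L (n + 1) BW n,
        ¬ IsA1Uniruled ℂ L (n + 1) BW].TFAE ∧
      (LogCanonicalImageDimGe L (n + 1) BW (n + 1) ↔ ¬ IsCoveredByLogGenusLeOne L n BW)) := by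
  obtain ⟨h1, h2⟩ := J4.H18.LS.main (S := S) hK rfl hF hcl (BV := BV) hω.1 hω.2 hgen L (BL := BW)
    (fun P Q e h => hBW P Q e h.1 h.2)
  refine ⟨h1, fun hm => ?_⟩
  obtain ⟨h3, h4⟩ := h2 hm
  rw [cover_iff] at h4
  exact ⟨h3, h4⟩

end Pool.Agent.Results.MP_410da7_ag.OpenFibrationsWithSeveralMaps
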