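import Pool.Agent.J4.H11.TQ.Main

/-!
# `A¹`-uniruledness and the logarithmic Kodaira dimension of quotients of toric varieties

Let `k` be an algebraically closed field of characteristic zero, `T` the torus of dimension `n` over
`k`, with function field `L` and coordinates `x`, and `G` any finite group of automorphisms of the
variety `T` (they need not be homomorphisms of groups, and need not respect a product
decomposition). Let `X` be a toric variety with the torus `T`, possibly `X = T`, on which `G` acts,
and `S` the set of the integral points of the support of the fan of `X`: the centre of a place `w` of
`L` is on `X` if and only if the vector of the orders `w (x i)` is in `S`. The open variety of the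
theorem is (a resolution of) the quotient `X / G`. Its function field is the fixed field of `G`, and
its boundary is `Boundary G x S`, the set of the places whose extensions to `L` have no centre on `X`.

The theorem: the following are equivalent:

* `X / G` is `A¹`-uniruled;
* the logarithmic Kodaira dimension of `X / G` is `-∞`;
* the log canonical bundle of `X / G` is not pseudo-effective;
* `X ≠ T`, or some element of `G`, not the identity, is a reflection, i.e. it fixes all points of a
  hypersurface `a x ^ ℓ = 1` of the torus.

In particular logarithmic Kodaira dimension `-∞` implies `A¹`-uniruled for all these varieties.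

Proof. If an element `g` of `G` is not a reflection and fixes a point of the torus then the rank of
`A - 1` is at least two, where `A` is the integral matrix which gives the action of `g` on the
characters. Let `w` be a place of `L`, with centre on `T`, with ramification index `e > 1` over its
restriction `v` to the fixed field, and `g` the generator of the inertia group. Let `M` be the matrix
of the logarithmic derivatives of the coordinates with respect to a logarithmic frame of vector fields
at `v`. There is a positive definite symmetric integral matrix `Q` with `Aᵀ Q A = Q`. The entries of
the part of `M Q Mᵀ` which belongs to the complement of the fixed space of `A` are invariant and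
vanish at `w`, so they are divisible by the uniformizer of `v`; hence the order of `det M` at `w` is at
least `e` if the rank of `A - 1` is at least two. So the square of the invariant volume form of the
torus descends to a regular bicanonical form with logarithmic poles at the boundary on a resolution
of `T / G`. If there is a reflection then `L` is the field of rational functions in one variable `z`
over a subfield `F` with `g z = c / z`, `c ∈ F`, and the affine line with the coordinate `z + c / z`
over `F` is mapped to `T / G`.
-/

set_option autoImplicit false
set_option linter.overlappingInstances false

open FF IntermediateField Pool.Agent.W602.GT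
open Pool.Agent.W619.PL (IsA1Uniruled)

namespace Pool.Agent.Results.MP_410da7_ag.ToricQuotients

variable {k L : Type} [Field k] [Field L] [Algebra k L] {n : ℕ}

/-- The ring of the regular functions on the torus with the coordinates `x`: the Laurent
polynomials. -/
def RegularFunctions (k : Type) {L : Type} [Field k] [Field L] [Algebra k L] {n : ℕ}
    (x : Fin n → L) : Subalgebra k L :=
  Algebra.adjoin k (Set.range x ∪ Set.range fun i => (x i)⁻¹)

/-- The boundary of `X / G`: the places of the fixed field of `G` for which no extension to `L` has
a centre on `X`. -/
def Boundary (G : Subgroup (L ≃ₐ[k] L)) (x : Fin n → L) (S : Set (Fin n → ℤ))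
    (v : Place k (fixedField G)) : Prop :=
  ∀ (w : Place k L) (e : ℕ), (0 < e ∧ ∀ f : fixedField G, w.ord (f : L) = e * v.ord f) →
    (fun i => w.ord (x i)) ∉ S

/-- The automorphism `g` of the torus fixes all points of the hypersurface `a x ^ ℓ = 1`. -/
def IsReflection (x : Fin n → L) (g : L ≃ₐ[k] L) : Prop :=
  ∃ (a : k) (u ℓ : Fin n → ℤ), a ≠ 0 ∧ ℓ ≠ 0 ∧
    ∀ i, g (x i) = x i * (algebraMap k L a * ∏ j, x j ^ ℓ j) ^ u i

/-- **Quotients of toric varieties.** Let `L` be the function field of the torus with the
coordinates `x`, `G` a finite group of automorphisms of the torus, and `S` the set of integral points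
of a union of cones (rational or not), which contains `0`. The following are equivalent: the quotient
by `G` of the toric variety given by `S` is `A¹`-uniruled; its logarithmic Kodaira dimension is `-∞`;
its log canonical bundle is not pseudo-effective; `S ≠ {0}` or `G` contains a reflection. For `S = {0}`
the boundary consists of the places at which some regular function on the quotient of the torus
has a pole. -/
theorem result [IsAlgClosed k] [CharZero k] {x : Fin n → L} (hx : AlgebraicIndependent k x)
    (hgen : IntermediateField.adjoin k (Set.range x) = ⊤) (G : Subgroup (L ≃ₐ[k] L)) [Finite G]
    (hG : ∀ g ∈ G, ∀ f ∈ RegularFunctions k x, g f ∈ RegularFunctions k x)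
    {S : Set (Fin n → ℤ)} (h0 : 0 ∈ S)
    (hS : ∀ (m : ℕ) (v : Fin n → ℤ), 0 < m → (m • v ∈ S ↔ v ∈ S)) :
    [IsA1Uniruled k (fixedField G) n (Boundary G x S),
      ¬ KodGe k (fixedField G) n (Boundary G x S) 0, ¬ Psef k (fixedField G) n (Boundary G x S),
      (∃ v ∈ S, v ≠ 0) ∨ ∃ g ∈ G, g ≠ 1 ∧ IsReflection x g].TFAE ∧
    ∀ v : Place k (fixedField G), Boundary G x {0} v ↔
      ∃ f : fixedField G, (f : L) ∈ RegularFunctions k x ∧ ¬ v.Reg f :=
  ⟨Pool.Agent.J4.H11.TQ.tfae hx hgen G hG h0 hS,
    Pool.Agent.J4.H11.TQ.tBd_zero (Pool.Agent.J4.H11.TQ.x_ne hx) G hG⟩

end Pool.Agent.Results.MP_410da7_ag.ToricQuotients
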