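import Pool.Agent.J4.H11.CX.Main

/-!
# `A¹`-uniruledness and the logarithmic Kodaira dimension of varieties with a torus action of
complexity one

Let `k` be an algebraically closed field of characteristic zero and `X` a variety of dimension
`r + 1` with an effective action of the torus `T` of dimension `r` (a `T`-variety of complexity one),
with arbitrary singularities, affine or not, with function field `K`. The field `C` of the invariant
rational functions is a function field in one variable, and `K` is generated over `C` by semi-invariant
functions `z 1, ..., z r`, algebraically independent over `C`, whose characters are a basis of the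
characters of `T`. For a place `w` of `K`, whether the centre of `w` is on `X` depends on the
restriction of `w` to `C` and on the vector `u` of the orders `w (z i)` only: if `w` is trivial on `C`
then the centre is on `X` iff `u` is in a set `H`, and if `w` restricts to `m` times the place `p` of
`C` then the centre is on `X` iff `u` is in a set `S p m` (the support of the hyperfan, or divisorial
fan, of `X`). The sets are conical, `0 ∈ H`, and `0 ∈ S p 1` for almost all `p`, since `X` contains an
open subset `U × T` with a curve `U`. The open variety of the theorem is (a resolution of) `X`.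

The multiplicity of the fibre over `p` is the least `m > 0` for which `S p m` is not empty; this is
the least multiplicity of a component of the fibre over `p` for the resolutions of `X`.

The theorem: the following are equivalent:

* `X` is `A¹`-uniruled;
* the logarithmic Kodaira dimension of (a resolution of) `X` is `-∞`;
* the log canonical bundle is not pseudo-effective;
* `H ≠ {0}` (i.e. the closures of the general orbits are larger than the orbits), or `C` is
  rational and `∑ (1 - 1 / mult p) < 2`, where the points with empty fibre count `1`.

In particular logarithmic Kodaira dimension `-∞` implies `A¹`-uniruled for all these varieties.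

Proof. If `H = {0}` and the orbifold curve has nonnegative degree, then there is a form `c (dt) ^ m`
on it with poles of order at most `m (1 - 1 / mult p)`, and its product with the `m`-th power of the
invariant volume form of the torus is a pluricanonical form on the resolutions, with logarithmic
poles at the boundary and regular elsewhere: its order along a divisor with multiplicity `μ` over
`p`, computed on logarithmic vector fields, is at least `μ m / mult p ≥ m`. If `H ≠ {0}` then `X`
contains the images of the affine lines in the closures of the general orbits. If the orbifold curve
is spherical then it is the image of `A¹` under a polynomial map with the multiplicities as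
ramification indices: one uses Klein's solutions of `A ^ a + B ^ b + C ^ c = 0` in coprime
polynomials. The pull-back of the fibration `X ⇢ C` under this map has sections over the whole of
`A¹`, which are moved by `T`.
-/

set_option autoImplicit false
set_option linter.overlappingInstances false

open FF IntermediateField Pool.Agent.W602.GT
open Pool.Agent.W619.PL (IsA1Uniruled)

namespace Pool.Agent.Results.MP_410da7_ag.TorusComplexityOne

variable {k K : Type} [Field k] [Field K] [Algebra k K] {r : ℕ}

/-- The boundary of the variety with the hyperfan `(H, S)`: the places of `K` which have no centre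
on it. -/
def Boundary (C : IntermediateField k K) (z : Fin r → K) (H : Set (Fin r → ℤ))
    (S : Place k C → ℕ → Set (Fin r → ℤ)) (w : Place k K) : Prop :=
  ¬ (((∀ c : C, w.ord (c : K) = 0) ∧ (fun i => w.ord (z i)) ∈ H) ∨
    ∃ (p : Place k C) (m : ℕ), 0 < m ∧ (∀ c : C, w.ord (c : K) = m * p.ord c) ∧
      (fun i => w.ord (z i)) ∈ S p m)

/-- The multiplicity of the fibre over `p`: the least `m > 0` for which `S p m` is not empty, and
`0` if the fibre is empty. -/
noncomputable def multiplicity {C : IntermediateField k K}
    (S : Place k C → ℕ → Set (Fin r → ℤ)) (p : Place k C) : ℕ :=
  sInf {m | 0 < m ∧ (S p m).Nonempty}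

/-- **Varieties with a torus action of complexity one.** Let `C` be a function field in one
variable, `K` the field of rational functions in `z 1, ..., z r` over `C`, and `(H, S)` the sets of
the integral points of a union of (hyper)cones, with `0 ∈ H` and `0 ∈ S p 1` for almost all `p`.
The following are equivalent: the variety given by `(H, S)` is `A¹`-uniruled; its logarithmic
Kodaira dimension is `-∞`; its log canonical bundle is not pseudo-effective; `H ≠ {0}`, or `C` is
rational and `∑ (1 - 1 / mult p) < 2`.

Moreover, for a subalgebra `A` generated by semi-invariant functions `c j * z ^ m j`, the places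
at which some element of `A` has a pole (the places without centre on the affine variety
`Spec A`) are the boundary for the hyperfan given by the linear inequalities
`0 ≤ μ * p (c j) + ⟨m j, v⟩`. -/
theorem result [IsAlgClosed k] [CharZero k] (C : IntermediateField k K) [IsFF k C]
    {z : Fin r → K} (hz : AlgebraicIndependent C z)
    (hgen : IntermediateField.adjoin C (Set.range z) = ⊤) :
    (∀ (H : Set (Fin r → ℤ)) (S : Place k C → ℕ → Set (Fin r → ℤ)),
      0 ∈ H → {p | 0 ∉ S p 1}.Finite →
      (∀ (m : ℕ) (v : Fin r → ℤ), 0 < m → (m • v ∈ H ↔ v ∈ H)) →
      (∀ (p : Place k C) (m μ : ℕ) (v : Fin r → ℤ), 0 < m → 0 < μ →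
        (m • v ∈ S p (m * μ) ↔ v ∈ S p μ)) →
      [IsA1Uniruled k K (r + 1) (Boundary C z H S),
        ¬ KodGe k K (r + 1) (Boundary C z H S) 0, ¬ Psef k K (r + 1) (Boundary C z H S),
        (∃ v ∈ H, v ≠ 0) ∨ ((∃ t : C, k⟮t⟯ = ⊤) ∧
          ∀ F : Finset (Place k C), ∑ p ∈ F, (1 - 1 / (multiplicity S p : ℚ)) < 2)].TFAE) ∧
    ∀ {J : Type} (c : J → C) (m : J → Fin r → ℤ), (∀ j, c j ≠ 0) → ∀ w : Place k K,
      Boundary C z {v | ∀ j, 0 ≤ ∑ i, m j i * v i}
        (fun p μ => {v | ∀ j, 0 ≤ μ * p.ord (c j) + ∑ i, m j i * v i}) w ↔
      ∃ f ∈ Algebra.adjoin k (Set.range fun j => (c j : K) * ∏ i, z i ^ m j i), ¬ w.Reg f :=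
  ⟨fun H S h0 hfin hH hS => Pool.Agent.J4.H11.CX.tfae (S := fun p m v => v ∈ S p m)
      (H := fun v => v ∈ H) hz hgen h0 hH hS hfin,
    fun c m hc w => Pool.Agent.J4.H11.CX.affine_bd (Pool.Agent.J4.H11.TQ.x_ne hz) c hc m w⟩

end Pool.Agent.Results.MP_410da7_ag.TorusComplexityOne
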